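import Pool.Agent.Helper4.MCP.GoalsB

set_option autoImplicit false

namespace Pool.Agent.Helper96.MCP

open Pool.Agent.Helper4.MCP Pool.Agent.Helper26.MCE Pool.Agent.Helper87.MC Finset

open Classical in
lemma cnt {G : Type} [AddCommGroup G] [Fintype G] (D : Finset G) (M Q : ℕ) (z : G)
    (v : Fin Q → Fin M) (hv : Function.Injective v) :
    (univ.filter fun ω : Fin M → G => ∀ i, z - ω (v i) ∈ D).card * Fintype.card G ^ Q =
      D.card ^ Q * Fintype.card G ^ M := by
  set S : Finset (Fin M) := univ.image v with hS
  have hScard : S.card = Q := by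
    rw [hS, card_image_of_injective _ hv]; simp
  set D' : Finset G := univ.filter fun x => z - x ∈ D with hD'
  have hD'card : D'.card = D.card := by
    apply card_bij (fun x _ => z - x)
    · intro x hx; simpa [hD'] using hx
    · intro x _ y _ h; simpa using h
    · intro y hy; exact ⟨z - y, by simpa [hD'] using hy, by simp⟩
  have heq : (univ.filter fun ω : Fin M → G => ∀ i, z - ω (v i) ∈ D) =
      Fintype.piFinset (fun j => if j ∈ S then D' else univ) := by
    ext ω
    simp only [mem_filter, mem_univ, true_and, Fintype.mem_piFinset]
    constructor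
    · intro h j
      by_cases hj : j ∈ S
      · rw [if_pos hj]
        obtain ⟨i, _, rfl⟩ := mem_image.1 hj
        simpa [hD'] using h i
      · rw [if_neg hj]; exact mem_univ _
    · intro h i
      have hj : v i ∈ S := by simp [hS]
      have := h (v i)
      rw [if_pos hj] at this
      simpa [hD'] using this
  rw [heq, Fintype.card_piFinset]
  have h1 : ∀ j : Fin M, ((if j ∈ S then D' else univ : Finset G).card) =
      if j ∈ S then D.card else Fintype.card G := by
    intro j
    split_ifs
    · exact hD'card
    · simp
  rw [prod_congr rfl (fun j _ => h1 j), prod_ite, prod_const, prod_const]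
  have h2 : (univ.filter fun j => j ∈ S) = S := by ext; simp
  have h3 : (univ.filter fun j => j ∉ S).card = M - Q := by
    have : (univ.filter fun j => j ∉ S) = Sᶜ := by ext; simp
    rw [this, card_compl, hScard]; simp
  have h4 : Q ≤ M := by
    have := Fintype.card_le_of_injective v hv
    simpa using this
  rw [h2, h3, hScard, mul_assoc, ← pow_add, Nat.sub_add_cancel h4]

/-- **COV**. -/
theorem goalCOV : G_COV := by
  classical
  intro G _ _ D M Q hQ
  have hsub : (univ.filter fun ω : Fin M → G => ¬ Covok D Q ω) ⊆
      (univ : Finset (G × {v : Fin Q → Fin M // Function.Injective v})).biUnion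
        (fun p => univ.filter fun ω : Fin M → G => ∀ i, p.1 - ω (p.2.1 i) ∈ D) := by
    intro ω hω
    rw [mem_filter] at hω
    obtain ⟨_, hω⟩ := hω
    unfold Covok at hω
    push Not at hω
    obtain ⟨z, hz⟩ := hω
    rw [Nat.card_eq_fintype_card] at hz
    have : Nonempty (Fin Q ↪ {v : Fin M // z - ω v ∈ D}) := by
      apply Function.Embedding.nonempty_of_card_le
      simpa using hz.le
    obtain ⟨f⟩ := this
    rw [mem_biUnion]
    refine ⟨(z, ⟨fun i => (f i).1, ?_⟩), mem_univ _, ?_⟩
    · intro i j hij
      exact f.injective (Subtype.ext hij)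
    · simp only [mem_filter, mem_univ, true_and]
      intro i
      exact (f i).2
  have hle := (card_le_card hsub).trans card_biUnion_le
  calc (univ.filter fun ω : Fin M → G => ¬ Covok D Q ω).card * Fintype.card G ^ Q
      ≤ (∑ p : G × {v : Fin Q → Fin M // Function.Injective v},
          (univ.filter fun ω : Fin M → G => ∀ i, p.1 - ω (p.2.1 i) ∈ D).card) *
            Fintype.card G ^ Q := Nat.mul_le_mul_right _ hle
    _ = ∑ p : G × {v : Fin Q → Fin M // Function.Injective v},
          D.card ^ Q * Fintype.card G ^ M := by
        rw [sum_mul]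
        exact sum_congr rfl (fun p _ => cnt D M Q p.1 p.2.1 p.2.2)
    _ = Fintype.card G * Fintype.card {v : Fin Q → Fin M // Function.Injective v} *
          (D.card ^ Q * Fintype.card G ^ M) := by
        rw [sum_const, smul_eq_mul, card_univ, Fintype.card_prod]
    _ ≤ Fintype.card G * M ^ Q * (D.card ^ Q * Fintype.card G ^ M) := by
        apply Nat.mul_le_mul_right
        apply Nat.mul_le_mul_left
        calc Fintype.card {v : Fin Q → Fin M // Function.Injective v}
            ≤ Fintype.card (Fin Q → Fin M) := Fintype.card_subtype_le _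
          _ = M ^ Q := by simp
    _ = Fintype.card G * (M * D.card) ^ Q * Fintype.card G ^ M := by
        rw [mul_pow]; ring

end Pool.Agent.Helper96.MCP
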